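import Pool.Agent.H90.CayleyDefs
import Pool.Agent.H90.CayleyMain

/-!
Typical distance in random Cayley graphs of finite Abelian groups: for `1 ≪ k ≪ log |G|` and
`k - d(G) ≍ k`, the typical distance concentrates at `k |G|^(1/k) / e` (directed version) and at
`k |G|^(1/k) / (2 e)` (undirected version), so at a value depending only on `k` and `|G|`.
-/

open Filter Topology Pool.Agent.H90.CayleyDefs

universe u

namespace Pool.Agent.Results.MP_6efeb4_pr.TypicalDistance

/-- **Main theorem.** For every sequence of finite Abelian groups `G N` with `|G N| → ∞`, and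
numbers of generators `k N` with `1 ≪ k ≪ log |G|` and `k - d(G) ≍ k`, the typical distance of the
random Cayley graph concentrates at `k |G|^(1/k) / e` in the directed version and at
`k |G|^(1/k) / (2 e)` in the undirected version. -/
theorem result {G : ℕ → Type u} [∀ N, AddCommGroup (G N)] [∀ N, Finite (G N)] {k : ℕ → ℕ}
    (hcard : Tendsto (fun N => Nat.card (G N)) atTop atTop)
    (hk : Tendsto k atTop atTop)
    (hklog : Tendsto (fun N => (k N : ℝ) / Real.log (Nat.card (G N))) atTop (𝓝 0))
    (hgen : ∃ c : ℝ, 0 < c ∧ ∀ᶠ N in atTop,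
      c * (k N : ℝ) ≤ (k N : ℝ) - (AddGroup.rank (G N) : ℝ)) :
    Concentrates G k (fun _ z => dirEdge z) (fun N => dirValue (k N) (Nat.card (G N))) ∧
    Concentrates G k (fun _ z => undirEdge z) (fun N => undirValue (k N) (Nat.card (G N))) :=
  Pool.Agent.H90.CayleyMain.main hcard hk hklog hgen

end Pool.Agent.Results.MP_6efeb4_pr.TypicalDistance
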